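import Pool.Agent.H17.RX.Stm

/-!
Part ISO of the crew RX (MP_a60174_an): the complex Hilbert space `HH d` is a real `ℓ²`.
-/

set_option autoImplicit false

namespace Pool.Agent.H85.RX

open Filter Topology MeasureTheory
open scoped ComplexConjugate ENNReal
open Pool.Agent.H17.RX

/-- index set of the real basis -/
abbrev Ix (d : ℕ → ℕ) : Type := (Σ k, Fin (d k)) × Bool

/-- the real basis -/
noncomputable def bv (d : ℕ → ℕ) (i : Ix d) : HH d :=
  lp.single 2 i.1.1 (EuclideanSpace.single i.1.2 (if i.2 then (1 : ℂ) else Complex.I))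

lemma inner_bv (d : ℕ → ℕ) (i : Ix d) (x : HH d) :
    inner ℝ (bv d i) x = if i.2 then ((x i.1.1) i.1.2).re else ((x i.1.1) i.1.2).im := by
  unfold bv
  rw [lp.inner_single_left, PiLp.inner_apply, Finset.sum_eq_single i.1.2]
  · rw [Complex.inner]
    cases i.2 <;> simp
  · intro j _ hj
    simp [hj]
  · simp

lemma on_bv (d : ℕ → ℕ) : Orthonormal ℝ (bv d) := by
  classical
  rw [orthonormal_iff_ite]
  rintro ⟨⟨k, j⟩, b⟩ ⟨⟨k', j'⟩, b'⟩
  rw [inner_bv]
  by_cases hk : k = k'
  · subst hk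
    by_cases hj : j = j'
    · subst hj
      cases b <;> cases b' <;> simp [bv]
    · have : ¬ ((⟨⟨k, j⟩, b⟩ : Ix d) = ⟨⟨k, j'⟩, b'⟩) := by
        intro h
        have := (Prod.ext_iff.1 h).1
        simp at this
        exact hj this
      rw [if_neg this]
      simp [bv, hj]
  · have : ¬ ((⟨⟨k, j⟩, b⟩ : Ix d) = ⟨⟨k', j'⟩, b'⟩) := by
      intro h
      have := (Prod.ext_iff.1 h).1
      exact hk (Sigma.mk.inj_iff.1 this).1
    rw [if_neg this]
    have h0 : (bv d ⟨⟨k', j'⟩, b'⟩ : HH d) k = 0 := by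
      unfold bv
      exact lp.single_apply_ne _ _ _ hk
    simp only [h0]
    simp

lemma exists_hb (d : ℕ → ℕ) (hd : ∀ k, 1 ≤ d k) : Nonempty (HilbertBasis ℕ ℝ (HH d)) := by
  have : Infinite (Ix d) := by
    refine Infinite.of_injective (fun k : ℕ => ((⟨k, ⟨0, hd k⟩⟩, true) : Ix d)) ?_
    intro a b hab
    have := (Prod.ext_iff.1 hab).1
    exact (Sigma.mk.inj_iff.1 this).1
  obtain ⟨e⟩ := nonempty_equiv_of_countable (α := ℕ) (β := Ix d)
  refine ⟨HilbertBasis.mkOfOrthogonalEqBot (v := bv d ∘ e) ((on_bv d).comp e e.injective) ?_⟩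
  rw [Submodule.eq_bot_iff]
  intro x hx
  rw [Submodule.mem_orthogonal] at hx
  have h1 : ∀ i : Ix d, inner ℝ (bv d i) x = 0 := by
    intro i
    refine hx _ (Submodule.subset_span ⟨e.symm i, ?_⟩)
    simp
  apply lp.ext
  funext k
  have : ∀ j, (x k) j = 0 := by
    intro j
    have h2 := h1 (⟨k, j⟩, true)
    have h3 := h1 (⟨k, j⟩, false)
    rw [inner_bv] at h2 h3
    exact Complex.ext (by simpa using h2) (by simpa using h3)
  ext j
  rw [this j]
  simp

theorem t_ISO : S_ISO := by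
  intro d hd
  obtain ⟨b⟩ := exists_hb d hd
  refine ⟨b.repr.toLinearEquiv.toAddEquiv, fun x => b.repr.norm_map x, fun r x => ?_⟩
  have h : ((r : ℂ) • x : HH d) = r • x := by
    apply lp.ext
    funext k
    ext j
    change ((r : ℂ) * (x k) j) = r • ((x k) j)
    rw [Complex.real_smul]
  rw [h]
  exact b.repr.map_smul r x

end Pool.Agent.H85.RX
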