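import Pool.Agent.H17.RX.Stm

/-!
Part MOM of the crew RX (MP_a60174_an): second moment of an antilinear form at the flat vectors.
-/

set_option autoImplicit false

namespace Pool.Agent.H85.RX

open Filter Topology MeasureTheory
open scoped ComplexConjugate ENNReal
open Pool.Agent.H17.RX

lemma chi_add' (a b : ZMod 4) : chi (a + b) = chi a * chi b := by
  unfold chi
  rw [← pow_add, ZMod.val_add]
  conv_rhs => rw [← Nat.mod_add_div (a.val + b.val) 4, pow_add, pow_mul, Complex.I_pow_four,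
    one_pow, mul_one]

lemma chi_zero' : chi 0 = 1 := by
  unfold chi
  simp

lemma chi_one' : chi 1 = Complex.I := by
  unfold chi
  have : (1 : ZMod 4).val = 1 := rfl
  rw [this, pow_one]

lemma norm_chi' (a : ZMod 4) : ‖chi a‖ = 1 := by
  unfold chi
  rw [norm_pow, Complex.norm_I, one_pow]

lemma chi_shift {n : ℕ} (θ : Th n) (j x : Fin n) :
    chi ((θ + Pi.single j 1 : Th n) x) = chi (θ x) * (if x = j then Complex.I else 1) := by
  rw [Pi.add_apply, chi_add']
  by_cases h : x = j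
  · subst h
    rw [Pi.single_eq_same, chi_one', if_pos rfl]
  · rw [Pi.single_eq_of_ne h, chi_zero', if_neg h]

lemma exists_fac {n : ℕ} (p q : Fin n × Fin n) (h1 : p ≠ q) (h2 : p ≠ q.swap) : ∃ j : Fin n,
    (conj (if p.1 = j then Complex.I else 1) * conj (if p.2 = j then Complex.I else 1)) *
      ((if q.1 = j then Complex.I else 1) * (if q.2 = j then Complex.I else 1)) ≠ 1 := by
  have hI : -Complex.I ≠ 1 := by
    intro h
    have := congrArg Complex.re h
    simp at this
  have hII : conj Complex.I * Complex.I = 1 := by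
    rw [Complex.conj_I]
    simp
  have hm : (-1 : ℂ) ≠ 1 := by norm_num
  by_cases hb : p.1 = q.1
  · have hc : q.2 ≠ p.2 := by
      intro h
      exact h1 (Prod.ext hb h.symm)
    refine ⟨p.2, ?_⟩
    rw [if_neg hc, if_pos (rfl : p.2 = p.2), ← hb]
    by_cases hx : p.1 = p.2
    · simp only [if_pos hx]
      rw [mul_one, mul_assoc, hII, mul_one, Complex.conj_I]
      exact hI
    · simp only [if_neg hx]
      rw [map_one, one_mul, mul_one, mul_one, Complex.conj_I]
      exact hI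
  · by_cases hb' : p.1 = q.2
    · have hc : q.1 ≠ p.2 := by
        intro h
        exact h2 (Prod.ext hb' h.symm)
      refine ⟨p.2, ?_⟩
      rw [if_neg hc, if_pos (rfl : p.2 = p.2), ← hb']
      by_cases hx : p.1 = p.2
      · simp only [if_pos hx]
        rw [one_mul, mul_assoc, hII, mul_one, Complex.conj_I]
        exact hI
      · simp only [if_neg hx]
        rw [map_one, one_mul, mul_one, mul_one, Complex.conj_I]
        exact hI
    · refine ⟨p.1, ?_⟩
      have hb1 : ¬ q.1 = p.1 := fun h => hb h.symm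
      have hb2 : ¬ q.2 = p.1 := fun h => hb' h.symm
      rw [if_pos (rfl : p.1 = p.1), if_neg hb1, if_neg hb2]
      by_cases hx : p.2 = p.1
      · rw [if_pos hx, mul_one, mul_one, Complex.conj_I]
        have : -Complex.I * -Complex.I = -1 := by
          rw [neg_mul_neg, Complex.I_mul_I]
        rw [this]
        exact hm
      · rw [if_neg hx, map_one, mul_one, mul_one, mul_one, Complex.conj_I]
        exact hI

lemma ortho {n : ℕ} (p q : Fin n × Fin n) (h1 : p ≠ q) (h2 : p ≠ q.swap) :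
    ∑ θ : Th n, (conj (chi (θ p.1)) * conj (chi (θ p.2))) * (chi (θ q.1) * chi (θ q.2)) = 0 := by
  obtain ⟨j, hj⟩ := exists_fac p q h1 h2
  set G : Th n → ℂ := fun θ =>
    (conj (chi (θ p.1)) * conj (chi (θ p.2))) * (chi (θ q.1) * chi (θ q.2)) with hG
  set c : ℂ := (conj (if p.1 = j then Complex.I else 1) * conj (if p.2 = j then Complex.I else 1)) *
      ((if q.1 = j then Complex.I else 1) * (if q.2 = j then Complex.I else 1)) with hc
  have hs : ∀ θ : Th n, G (θ + Pi.single j 1) = c * G θ := by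
    intro θ
    simp only [hG, chi_shift, map_mul, hc]
    ring
  have h3 : ∑ θ : Th n, G (θ + Pi.single j 1) = ∑ θ : Th n, G θ :=
    Equiv.sum_comp (Equiv.addRight (Pi.single j 1 : Th n)) G
  simp_rw [hs] at h3
  rw [← Finset.mul_sum] at h3
  have h4 : (c - 1) * ∑ θ : Th n, G θ = 0 := by
    rw [sub_mul, h3, one_mul, sub_self]
  rcases mul_eq_zero.1 h4 with h | h
  · exact absurd (sub_eq_zero.1 h) hj
  · exact h

lemma ortho_norm {n : ℕ} (p q : Fin n × Fin n) :
    ‖∑ θ : Th n, (conj (chi (θ p.1)) * conj (chi (θ p.2))) * (chi (θ q.1) * chi (θ q.2))‖ ≤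
      4 ^ n * ((if q = p then 1 else 0) + (if q = p.swap then 1 else 0)) := by
  by_cases h1 : q = p
  · rw [if_pos h1]
    refine (norm_sum_le _ _).trans ?_
    simp only [norm_mul, RCLike.norm_conj, norm_chi', mul_one]
    rw [Finset.sum_const, Finset.card_univ]
    have hc : Fintype.card (Th n) = 4 ^ n := by
      simp [Th, ZMod.card]
    rw [hc]
    have : (0:ℝ) ≤ (if q = p.swap then 1 else 0) := by split_ifs <;> norm_num
    have h4 : (0:ℝ) < 4 ^ n := by positivity
    simp only [nsmul_eq_mul, Nat.cast_pow, Nat.cast_ofNat, mul_one]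
    nlinarith
  · by_cases h2 : q = p.swap
    · rw [if_neg h1, if_pos h2]
      refine (norm_sum_le _ _).trans ?_
      simp only [norm_mul, RCLike.norm_conj, norm_chi', mul_one]
      rw [Finset.sum_const, Finset.card_univ]
      have hc : Fintype.card (Th n) = 4 ^ n := by
        simp [Th, ZMod.card]
      rw [hc]
      simp
    · rw [ortho p q (fun h => h1 h.symm) (fun h => h2 (by rw [h, Prod.swap_swap])), norm_zero]
      positivity

lemma second_moment {n : ℕ} (K : Fin n × Fin n → ℂ) :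
    ∑ θ : Th n, ‖∑ p : Fin n × Fin n, (conj (chi (θ p.1)) * conj (chi (θ p.2))) * K p‖ ^ 2 ≤
      4 ^ n * (2 * ∑ p, ‖K p‖ ^ 2) := by
  have h1 : ((∑ θ : Th n,
      ‖∑ p : Fin n × Fin n, (conj (chi (θ p.1)) * conj (chi (θ p.2))) * K p‖ ^ 2 : ℝ) : ℂ) =
      ∑ p : Fin n × Fin n, ∑ q : Fin n × Fin n, (K p * conj (K q)) *
        ∑ θ : Th n, (conj (chi (θ p.1)) * conj (chi (θ p.2))) * (chi (θ q.1) * chi (θ q.2)) := by
    push_cast
    have h2 : ∀ θ : Th n,
        ((‖∑ p : Fin n × Fin n, (conj (chi (θ p.1)) * conj (chi (θ p.2))) * K p‖ : ℂ)) ^ 2 =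
        ∑ p : Fin n × Fin n, ∑ q : Fin n × Fin n, (K p * conj (K q)) *
          ((conj (chi (θ p.1)) * conj (chi (θ p.2))) * (chi (θ q.1) * chi (θ q.2))) := by
      intro θ
      rw [← Complex.mul_conj', map_sum, Finset.sum_mul_sum]
      refine Finset.sum_congr rfl fun p _ => Finset.sum_congr rfl fun q _ => ?_
      simp only [map_mul, Complex.conj_conj]
      ring
    simp_rw [h2]
    rw [Finset.sum_comm]
    refine Finset.sum_congr rfl fun p _ => ?_
    rw [Finset.sum_comm]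
    refine Finset.sum_congr rfl fun q _ => ?_
    rw [Finset.mul_sum]
  have h0 : 0 ≤ ∑ θ : Th n,
      ‖∑ p : Fin n × Fin n, (conj (chi (θ p.1)) * conj (chi (θ p.2))) * K p‖ ^ 2 :=
    Finset.sum_nonneg fun _ _ => by positivity
  rw [← Real.norm_of_nonneg h0, ← Complex.norm_real, h1]
  calc ‖∑ p : Fin n × Fin n, ∑ q : Fin n × Fin n, (K p * conj (K q)) *
        ∑ θ : Th n, (conj (chi (θ p.1)) * conj (chi (θ p.2))) * (chi (θ q.1) * chi (θ q.2))‖
      ≤ ∑ p : Fin n × Fin n, ∑ q : Fin n × Fin n, (‖K p‖ * ‖K q‖) *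
        (4 ^ n * ((if q = p then 1 else 0) + (if q = p.swap then 1 else 0))) := by
        refine (norm_sum_le _ _).trans (Finset.sum_le_sum fun p _ => ?_)
        refine (norm_sum_le _ _).trans (Finset.sum_le_sum fun q _ => ?_)
        rw [norm_mul, norm_mul, RCLike.norm_conj]
        exact mul_le_mul_of_nonneg_left (ortho_norm p q) (by positivity)
    _ = ∑ p : Fin n × Fin n, 4 ^ n * (‖K p‖ * (‖K p‖ + ‖K p.swap‖)) := by
        refine Finset.sum_congr rfl fun p _ => ?_
        have : ∀ q : Fin n × Fin n, (‖K p‖ * ‖K q‖) *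
            (4 ^ n * ((if q = p then 1 else 0) + (if q = p.swap then 1 else 0))) =
            4 ^ n * ‖K p‖ * ((if q = p then ‖K q‖ else 0) + (if q = p.swap then ‖K q‖ else 0)) := by
          intro q
          split_ifs <;> ring
        simp_rw [this]
        rw [← Finset.mul_sum, Finset.sum_add_distrib]
        simp only [Finset.sum_ite_eq', Finset.mem_univ, if_true]
        ring
    _ ≤ ∑ p : Fin n × Fin n, 4 ^ n * (‖K p‖ ^ 2 + (‖K p‖ ^ 2 + ‖K p.swap‖ ^ 2) / 2) := by
        refine Finset.sum_le_sum fun p _ => mul_le_mul_of_nonneg_left ?_ (by positivity)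
        nlinarith [sq_nonneg (‖K p‖ - ‖K p.swap‖)]
    _ = 4 ^ n * (2 * ∑ p, ‖K p‖ ^ 2) := by
        rw [← Finset.mul_sum, Finset.sum_add_distrib, ← Finset.sum_div, Finset.sum_add_distrib]
        have : ∑ p : Fin n × Fin n, ‖K p.swap‖ ^ 2 = ∑ p : Fin n × Fin n, ‖K p‖ ^ 2 :=
          (Equiv.prodComm (Fin n) (Fin n)).sum_comp (fun p => ‖K p‖ ^ 2)
        rw [this]
        ring

lemma inner_zz {d n : ℕ} {u : Fin n → F d} {f : Th n → Th d} (hs : Sys n u f)
    (S : F d →L⋆[ℂ] F d) (θ : Th n) :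
    inner ℂ (zz (f θ)) (S (zz (f θ))) = ((n : ℝ) : ℂ)⁻¹ *
      ∑ p : Fin n × Fin n, (conj (chi (θ p.1)) * conj (chi (θ p.2))) *
        inner ℂ (u p.1) (S (u p.2)) := by
  have hr : (((Real.sqrt n : ℝ) : ℂ)⁻¹) * (((Real.sqrt n : ℝ) : ℂ)⁻¹) = ((n : ℝ) : ℂ)⁻¹ := by
    rw [← mul_inv, ← Complex.ofReal_mul, Real.mul_self_sqrt (Nat.cast_nonneg n)]
  have hcr : conj (((Real.sqrt n : ℝ) : ℂ)⁻¹) = (((Real.sqrt n : ℝ) : ℂ)⁻¹) := by
    rw [map_inv₀, Complex.conj_ofReal]
  rw [hs.vec θ, ContinuousLinearMap.map_smulₛₗ, inner_smul_left, inner_smul_right, hcr,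
    ← mul_assoc, hr]
  congr 1
  rw [map_sum, sum_inner, Fintype.sum_prod_type]
  refine Finset.sum_congr rfl fun b _ => ?_
  rw [inner_sum]
  refine Finset.sum_congr rfl fun c _ => ?_
  rw [ContinuousLinearMap.map_smulₛₗ, inner_smul_left, inner_smul_right]
  ring

theorem t_MOM : S_MOM := by
  intro d n hn u f hs S hS ε hε
  have hn0 : (0:ℝ) < n := by exact_mod_cast hn
  set K : Fin n × Fin n → ℂ := fun p => inner ℂ (u p.1) (S (u p.2)) with hK
  have hbes : ∑ p, ‖K p‖ ^ 2 ≤ n := by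
    rw [Fintype.sum_prod_type, Finset.sum_comm]
    calc ∑ c : Fin n, ∑ b : Fin n, ‖K (b, c)‖ ^ 2 ≤ ∑ c : Fin n, (1:ℝ) := by
          refine Finset.sum_le_sum fun c _ => ?_
          have h1 := hs.on.sum_inner_products_le (S (u c)) (s := Finset.univ)
          refine h1.trans ?_
          have h2 : ‖S (u c)‖ ≤ 1 := by
            refine (S.le_opNorm _).trans ?_
            rw [hs.on.1 c, mul_one]
            exact hS
          exact pow_le_one₀ (norm_nonneg _) h2
      _ = n := by simp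
  have hmom := second_moment K
  have hval : ∀ θ : Th n, ‖inner ℂ (zz (f θ)) (S (zz (f θ)))‖ ^ 2 =
      (n : ℝ)⁻¹ ^ 2 * ‖∑ p : Fin n × Fin n, (conj (chi (θ p.1)) * conj (chi (θ p.2))) * K p‖ ^ 2 := by
    intro θ
    rw [inner_zz hs S θ, norm_mul, mul_pow, norm_inv, Complex.norm_real,
      Real.norm_of_nonneg hn0.le]
  have hM : ((Finset.univ.filter fun θ : Th n =>
      ε < ‖inner ℂ (zz (f θ)) (S (zz (f θ)))‖).card : ℝ) * ε ^ 2 ≤
      (n : ℝ)⁻¹ ^ 2 * (4 ^ n * (2 * n)) := by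
    calc ((Finset.univ.filter fun θ : Th n =>
          ε < ‖inner ℂ (zz (f θ)) (S (zz (f θ)))‖).card : ℝ) * ε ^ 2
        = ∑ θ ∈ Finset.univ.filter (fun θ : Th n =>
          ε < ‖inner ℂ (zz (f θ)) (S (zz (f θ)))‖), ε ^ 2 := by
          rw [Finset.sum_const, nsmul_eq_mul]
      _ ≤ ∑ θ ∈ Finset.univ.filter (fun θ : Th n =>
          ε < ‖inner ℂ (zz (f θ)) (S (zz (f θ)))‖), ‖inner ℂ (zz (f θ)) (S (zz (f θ)))‖ ^ 2 := by
          refine Finset.sum_le_sum fun θ hθ => ?_
          have := (Finset.mem_filter.1 hθ).2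
          exact pow_le_pow_left₀ hε.le this.le 2
      _ ≤ ∑ θ : Th n, ‖inner ℂ (zz (f θ)) (S (zz (f θ)))‖ ^ 2 :=
          Finset.sum_le_univ_sum_of_nonneg fun _ => by positivity
      _ = (n : ℝ)⁻¹ ^ 2 * ∑ θ : Th n, ‖∑ p : Fin n × Fin n,
            (conj (chi (θ p.1)) * conj (chi (θ p.2))) * K p‖ ^ 2 := by
          simp_rw [hval]
          rw [Finset.mul_sum]
      _ ≤ (n : ℝ)⁻¹ ^ 2 * (4 ^ n * (2 * n)) := by
          refine mul_le_mul_of_nonneg_left (hmom.trans ?_) (by positivity)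
          gcongr
  rw [le_div_iff₀ (by positivity)]
  have : (n : ℝ)⁻¹ ^ 2 * (4 ^ n * (2 * n)) = 2 * 4 ^ n / n := by
    field_simp
  rw [this, le_div_iff₀ hn0] at hM
  linarith

end Pool.Agent.H85.RX
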